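import Pool.Agent.Y63.NV.Stm

/-!
# NV-SCHUR: central characters of irreducible modules
-/

namespace Pool.Agent.Y705.NV

open Pool.Agent.Y63.NV

section

variable {F : Type} [Field F] {N : Type} [Group N] [Fintype N] {V : Type} [AddCommGroup V]
  [Module F V] (ρ : Representation F N V)

/-- the operator of a function on the group -/
noncomputable def opT (f : N → F) : Module.End F V := ∑ g, f g • ρ g

theorem opT_add (f g : N → F) : opT ρ (f + g) = opT ρ f + opT ρ g := by
  simp only [opT, Pi.add_apply, add_smul, Finset.sum_add_distrib]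

theorem opT_smul (a : F) (f : N → F) : opT ρ (a • f) = a • opT ρ f := by
  simp only [opT, Pi.smul_apply, smul_eq_mul, mul_smul, Finset.smul_sum]

theorem opT_one [DecidableEq N] : opT ρ (Pi.single 1 1) = 1 := by
  unfold opT
  rw [Finset.sum_eq_single (1 : N)]
  · rw [Pi.single_eq_same, one_smul, map_one]
  · intro b _ hb
    rw [Pi.single_eq_of_ne hb, zero_smul]
  · intro h
    exact absurd (Finset.mem_univ _) h

theorem opT_conv (f g : N → F) : opT ρ (conv f g) = opT ρ f * opT ρ g := by
  unfold opT conv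
  simp only [finsum_eq_sum_of_fintype, Finset.sum_smul]
  rw [Finset.sum_comm, Finset.sum_mul_sum]
  refine Finset.sum_congr rfl fun y _ => ?_
  rw [← Equiv.sum_comp (Equiv.mulLeft y) fun x => (f y * g (y⁻¹ * x)) • ρ x]
  refine Finset.sum_congr rfl fun x _ => ?_
  rw [Equiv.coe_mulLeft, inv_mul_cancel_left, map_mul, smul_mul_smul_comm]

theorem conv_classFun {f g : N → F} (hf : IsClassFun f) (hg : IsClassFun g) :
    IsClassFun (conv f g) := by
  intro a x
  unfold conv
  simp only [finsum_eq_sum_of_fintype]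
  rw [← Equiv.sum_comp (MulAut.conj a).toEquiv fun y => f y * g (y⁻¹ * (a * x * a⁻¹))]
  refine Finset.sum_congr rfl fun y _ => ?_
  have h1 : (MulAut.conj a).toEquiv y = a * y * a⁻¹ := rfl
  rw [h1, hf a y]
  have h2 : (a * y * a⁻¹)⁻¹ * (a * x * a⁻¹) = a * (y⁻¹ * x) * a⁻¹ := by group
  rw [h2, hg a]

theorem opT_comm {f : N → F} (hf : IsClassFun f) (h : N) : opT ρ f * ρ h = ρ h * opT ρ f := by
  unfold opT
  rw [Finset.sum_mul, Finset.mul_sum,
    ← Equiv.sum_comp (MulAut.conj h).toEquiv fun g => f g • ρ g * ρ h]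
  refine Finset.sum_congr rfl fun g _ => ?_
  have h1 : (MulAut.conj h).toEquiv g = h * g * h⁻¹ := rfl
  rw [h1, hf h g, smul_mul_assoc, mul_smul_comm, ← map_mul, ← map_mul]
  congr 2
  group

theorem opT_scalar [IsAlgClosed F] [FiniteDimensional F V] (hρ : ρ.IsIrreducible) {f : N → F}
    (hf : IsClassFun f) : ∃ c : F, opT ρ f = c • 1 := by
  let T : Representation.IntertwiningMap ρ ρ :=
    { opT ρ f with
      isIntertwining' := fun g => opT_comm ρ hf g }
  have := hρ
  obtain ⟨c, hc⟩ :=
    (Representation.IsIrreducible.algebraMap_intertwiningMap_bijective_of_isAlgClosed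
      (ρ := ρ)).2 T
  refine ⟨c, ?_⟩
  have h1 := congrArg Representation.IntertwiningMap.toLinearMap hc
  rw [Representation.IntertwiningMap.algebraMap_apply] at h1
  exact h1.symm

theorem trace_opT (f : N → F) (x : N) :
    ∑ g, f g * ρ.character (g * x) = LinearMap.trace F V (opT ρ f * ρ x) := by
  unfold opT Representation.character
  rw [Finset.sum_mul, map_sum]
  refine Finset.sum_congr rfl fun g _ => ?_
  rw [smul_mul_assoc, map_smul, smul_eq_mul, map_mul]

end

theorem schur (h : S_IRR) : S_SCHUR := by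
  intro F _ _ N _ _ φ hφ
  have hne : φ ≠ 0 := (h F N).2.ne_zero ⟨φ, hφ⟩
  refine ⟨Function.ne_iff.1 hne, ?_⟩
  obtain ⟨V, _, _, _, ρ, hρ, rfl⟩ := hφ
  classical
  cases nonempty_fintype N
  have hV : Nontrivial V := by
    by_contra hc
    rw [not_nontrivial_iff_subsingleton] at hc
    apply hne
    funext x
    unfold Representation.character
    rw [Subsingleton.elim (ρ x) 0, map_zero]
    rfl
  have key : ∀ f : N → F, ∃ c : F, IsClassFun f → opT ρ f = c • 1 := by
    intro f
    by_cases hf : IsClassFun f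
    · obtain ⟨c, hc⟩ := opT_scalar ρ hρ hf
      exact ⟨c, fun _ => hc⟩
    · exact ⟨0, fun h => absurd h hf⟩
  choose B hB using key
  have huniq : ∀ c c' : F, c • (1 : Module.End F V) = c' • 1 → c = c' := by
    intro c c' hc
    by_contra hne'
    have h1 : (c - c') • (1 : Module.End F V) = 0 := by rw [sub_smul, hc, sub_self]
    rcases smul_eq_zero.1 h1 with h2 | h2
    · exact hne' (sub_eq_zero.1 h2)
    · exact one_ne_zero h2
  refine ⟨B, ⟨?_, ?_, ?_, ?_⟩, ?_⟩
  · intro f g hf hg
    have hfg : IsClassFun (f + g) := fun a x => by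
      rw [Pi.add_apply, Pi.add_apply, hf a x, hg a x]
    apply huniq
    rw [← hB _ hfg, opT_add, hB f hf, hB g hg, add_smul]
  · intro a f hf
    have haf : IsClassFun (a • f) := fun b x => by
      rw [Pi.smul_apply, Pi.smul_apply, hf b x]
    apply huniq
    rw [← hB _ haf, opT_smul, hB f hf, mul_smul]
  · have h1 : IsClassFun (Pi.single (1 : N) (1 : F)) := by
      intro a x
      by_cases hx : x = 1
      · subst hx
        rw [mul_one, mul_inv_cancel]
      · have h2 : a * x * a⁻¹ ≠ 1 := fun h3 => hx (by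
          have h4 : x = a⁻¹ * (a * x * a⁻¹) * a := by group
          rw [h4, h3]
          group)
        rw [Pi.single_eq_of_ne hx, Pi.single_eq_of_ne h2]
    apply huniq
    have h2 := hB _ h1
    rw [← h2, one_smul]
    convert opT_one ρ
  · intro f g hf hg
    apply huniq
    rw [← hB _ (conv_classFun hf hg), opT_conv, hB f hf, hB g hg, mul_smul, smul_mul_assoc,
      one_mul]
  · intro f hf x
    rw [finsum_eq_sum_of_fintype, trace_opT, hB f hf, smul_mul_assoc, one_mul, map_smul,
      smul_eq_mul]
    rfl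

end Pool.Agent.Y705.NV
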