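import Pool.Agent.Y63.NV.Stm

/-!
# NV-NIL: class functions on the `p`-regular elements vanish at nilpotent elements of `F[N]`
-/

namespace Pool.Agent.Y705.NV

open Pool.Agent.Y63.NV

/-- the sum of an invariant function is the sum over the fixed points -/
theorem sum_fixed {F : Type} [Field F] (p n : ℕ) [hp : Fact p.Prime] [CharP F p] {W : Type}
    [Fintype W] [DecidableEq W] (σ : W → W) (hσ : ∀ w, σ^[p ^ n] w = w) (E : W → F)
    (hE : ∀ w, E (σ w) = E w) :
    ∑ w, E w = ∑ w ∈ Finset.univ.filter (fun w => σ w = w), E w := by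
  classical
  rw [← Finset.sum_fiberwise_of_maps_to (t := Finset.univ.image E)
      (s := Finset.univ) (g := E) (fun w _ => Finset.mem_image_of_mem _ (Finset.mem_univ w)),
    ← Finset.sum_fiberwise_of_maps_to (t := Finset.univ.image E)
      (s := Finset.univ.filter (fun w => σ w = w)) (g := E)
      (fun w _ => Finset.mem_image_of_mem _ (Finset.mem_univ w))]
  refine Finset.sum_congr rfl fun c _ => ?_
  have h1 : ∀ s : Finset W, ∑ w ∈ s.filter (fun w => E w = c), E w =
      ((s.filter (fun w => E w = c)).card : F) * c := by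
    intro s
    rw [Finset.sum_congr rfl (g := fun _ => c) (fun w hw => (Finset.mem_filter.1 hw).2),
      Finset.sum_const, nsmul_eq_mul]
  rw [h1, h1]
  congr 1
  let f : Function.End {w : W // E w = c} := fun w => ⟨σ w.1, by rw [hE]; exact w.2⟩
  have hfk : ∀ (k : ℕ) (w : {w : W // E w = c}), ((f ^ k) w).1 = σ^[k] w.1 := by
    intro k
    induction k with
    | zero => intro w; rfl
    | succ k ih =>
      intro w
      rw [pow_succ, Function.iterate_succ_apply]
      exact ih (f w)
  have hf : f ^ p ^ n = 1 := by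
    funext w
    apply Subtype.ext
    rw [hfk, hσ]
    rfl
  have h2 := Equiv.Perm.card_fixedPoints_modEq (p := p) (n := n) hf
  rw [Fintype.card_subtype] at h2
  have h3 : Fintype.card (Function.fixedPoints f) =
      ((Finset.univ.filter (fun w => σ w = w)).filter (fun w => E w = c)).card := by
    rw [Finset.filter_filter, ← Fintype.card_subtype]
    refine Fintype.card_congr ⟨fun x => ⟨x.1.1, ?_, x.1.2⟩, fun x => ⟨⟨x.1, x.2.2⟩, ?_⟩,
      fun x => rfl, fun x => rfl⟩
    · have := x.2
      exact congrArg Subtype.val this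
    · exact Subtype.ext x.2.1
  rw [h3] at h2
  exact (CharP.natCast_eq_natCast F p).2 h2

section

variable {F : Type} [Field F] {N : Type} [Group N] [Fintype N]

theorem pow_expand (a : N → F) (Q : ℕ) :
    (∑ g : N, MonoidAlgebra.single g (a g)) ^ Q =
      ∑ w : Fin Q → N, MonoidAlgebra.single (List.ofFn w).prod (∏ i, a (w i)) := by
  classical
  induction Q with
  | zero => simp [MonoidAlgebra.one_def]
  | succ Q ih =>
    rw [pow_succ', ih, Finset.sum_mul_sum, ← (Fin.consEquiv (fun _ => N)).sum_comp,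
      Fintype.sum_prod_type]
    refine Finset.sum_congr rfl fun g _ => Finset.sum_congr rfl fun w _ => ?_
    rw [MonoidAlgebra.single_mul_single]
    have h1 : (Fin.consEquiv (fun _ => N)) (g, w) = (Fin.cons g w : Fin (Q + 1) → N) := rfl
    rw [h1, List.ofFn_cons, List.prod_cons, Fin.prod_univ_succ]
    simp only [Fin.cons_zero, Fin.cons_succ]

/-- the linear functional on the group algebra of a function -/
noncomputable def lam (h : N → F) (x : MonoidAlgebra F N) : F := ∑ g, x.coeff g * h g

theorem lam_sum {ι : Type} (h : N → F) (s : Finset ι) (x : ι → MonoidAlgebra F N) :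
    lam h (∑ i ∈ s, x i) = ∑ i ∈ s, lam h (x i) := by
  unfold lam
  rw [Finset.sum_comm]
  refine Finset.sum_congr rfl fun g _ => ?_
  rw [MonoidAlgebra.coeff_sum, Finsupp.finset_sum_apply, Finset.sum_mul]

theorem lam_single (h : N → F) (g : N) (r : F) : lam h (MonoidAlgebra.single g r) = r * h g := by
  classical
  unfold lam
  rw [Finset.sum_eq_single g]
  · rw [MonoidAlgebra.coeff_single, Finsupp.single_eq_same]
  · intro b _ hb
    rw [MonoidAlgebra.coeff_single, Finsupp.single_eq_of_ne hb, zero_mul]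
  · intro hg
    exact absurd (Finset.mem_univ _) hg

theorem lam_zero (h : N → F) : lam h 0 = 0 := by
  unfold lam
  simp

theorem lam_pow (p n : ℕ) [hp : Fact p.Prime] [CharP F p] (h : N → F) (hh : IsClassFun h)
    (a : N → F) : lam h ((∑ g : N, MonoidAlgebra.single g (a g)) ^ p ^ n) =
      ∑ g, a g ^ p ^ n * h (g ^ p ^ n) := by
  classical
  obtain ⟨m, hm⟩ : ∃ m, p ^ n = m + 1 :=
    ⟨p ^ n - 1, (Nat.sub_add_cancel (Nat.one_le_pow _ _ hp.out.pos)).symm⟩
  rw [pow_expand, lam_sum]
  simp only [lam_single]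
  rw [hm]
  have hrot : ∀ (k : ℕ) (w : Fin (m + 1) → N),
      (fun w : Fin (m + 1) → N => fun i => w (i + 1))^[k] w =
        fun i => w ⟨(i.1 + k) % (m + 1), Nat.mod_lt _ (Nat.succ_pos m)⟩ := by
    intro k
    induction k with
    | zero =>
      intro w
      funext i
      show w i = w ⟨(i.1 + 0) % (m + 1), Nat.mod_lt _ (Nat.succ_pos m)⟩
      congr 1
      apply Fin.ext
      show i.1 = (i.1 + 0) % (m + 1)
      rw [add_zero, Nat.mod_eq_of_lt i.2]
    | succ k ih =>
      intro w
      rw [Function.iterate_succ_apply, ih]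
      funext i
      show w (⟨(i.1 + k) % (m + 1), Nat.mod_lt _ (Nat.succ_pos m)⟩ + 1) =
        w ⟨(i.1 + (k + 1)) % (m + 1), Nat.mod_lt _ (Nat.succ_pos m)⟩
      congr 1
      apply Fin.ext
      rw [Fin.val_add]
      show ((i.1 + k) % (m + 1) + 1 % (m + 1)) % (m + 1) = (i.1 + (k + 1)) % (m + 1)
      rw [← Nat.add_mod, add_assoc]
  rw [sum_fixed p n (fun w : Fin (m + 1) → N => fun i => w (i + 1)) ?_
    (fun w => (∏ i, a (w i)) * h (List.ofFn w).prod) ?_]
  · have h1 : Finset.univ.filter
        (fun w : Fin (m + 1) → N => (fun i => w (i + 1)) = w) =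
        Finset.univ.image (fun g : N => fun _ : Fin (m + 1) => g) := by
      ext w
      simp only [Finset.mem_filter, Finset.mem_univ, true_and, Finset.mem_image]
      constructor
      · intro hw
        refine ⟨w 0, ?_⟩
        funext i
        induction i using Fin.induction with
        | zero => rfl
        | succ i ih =>
          have h2 := congrFun hw i.castSucc
          rw [Fin.coeSucc_eq_succ] at h2
          rw [h2]
          exact ih
      · rintro ⟨g, rfl⟩
        rfl
    rw [h1, Finset.sum_image (fun g _ g' _ hg => congrFun hg 0)]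
    refine Finset.sum_congr rfl fun g _ => ?_
    rw [Finset.prod_const, Finset.card_univ, Fintype.card_fin, List.ofFn_const,
      List.prod_replicate]
  · intro w
    rw [hm, hrot]
    funext i
    congr 1
    apply Fin.ext
    show (i.1 + (m + 1)) % (m + 1) = i.1
    rw [Nat.add_mod_right, Nat.mod_eq_of_lt i.2]
  · intro w
    have h1 : ∏ i, a (w (i + 1)) = ∏ i, a (w i) :=
      Fintype.prod_equiv (Equiv.addRight (1 : Fin (m + 1))) _ _ fun i => rfl
    have h2 : (List.ofFn fun i : Fin (m + 1) => w (i + 1)).prod =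
        (List.ofFn fun i : Fin m => w i.succ).prod * w 0 := by
      rw [List.ofFn_succ', List.concat_eq_append, List.prod_append, List.prod_singleton,
        Fin.last_add_one]
      congr 2
      congr 1
      funext i
      rw [Fin.coeSucc_eq_succ]
    have h3 : (List.ofFn w).prod = w 0 * (List.ofFn fun i : Fin m => w i.succ).prod := by
      rw [List.ofFn_succ, List.prod_cons]
    show (∏ i, a (w (i + 1))) * h (List.ofFn fun i : Fin (m + 1) => w (i + 1)).prod =
      (∏ i, a (w i)) * h (List.ofFn w).prod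
    rw [h1, h2, h3]
    congr 1
    have h4 := hh (w 0) ((List.ofFn fun i : Fin m => w i.succ).prod * w 0)
    rw [← h4]
    congr 1
    group

end

theorem pow_eq_pp (p : ℕ) [hp : Fact p.Prime] {N : Type} [Group N] [Finite N] {s : ℕ}
    (hs : (Nat.card N).factorization p ≤ s) (x : N) :
    x ^ p ^ (Nat.totient (Nat.card N / p ^ (Nat.card N).factorization p) * s) = pp p x := by
  unfold pp
  rw [pow_eq_pow_iff_modEq]
  refine Nat.ModEq.of_dvd (orderOf_dvd_natCard x) ?_
  set n := Nat.card N with hn
  have hn0 : n ≠ 0 := Nat.card_pos.ne'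
  set m := n / p ^ n.factorization p with hm
  have hm0 : 0 < m := Nat.ordCompl_pos p hn0
  have hφ : 1 ≤ Nat.totient m := Nat.totient_pos.2 hm0
  have hcop : ∀ k, Nat.Coprime (p ^ k) m := fun k =>
    Nat.Coprime.pow_left _ (Nat.coprime_ordCompl hp.out hn0)
  have h2 : p ^ n.factorization p * m = n := Nat.ordProj_mul_ordCompl_eq_self n p
  have h3 : pexp p N = (p ^ n.factorization p) ^ Nat.totient m := rfl
  rw [← h2, ← Nat.modEq_and_modEq_iff_modEq_mul (hcop _), h3]
  constructor
  · have h4 : p ^ n.factorization p ∣ p ^ (Nat.totient m * s) :=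
      pow_dvd_pow _ (hs.trans (Nat.le_mul_of_pos_left _ hφ))
    have h5 : p ^ n.factorization p ∣ (p ^ n.factorization p) ^ Nat.totient m :=
      dvd_pow_self _ (by omega)
    exact ((Nat.modEq_zero_iff_dvd).2 h4).trans ((Nat.modEq_zero_iff_dvd).2 h5).symm
  · have h4 : p ^ (Nat.totient m * s) = (p ^ s) ^ Nat.totient m := by
      rw [← pow_mul, mul_comm]
    rw [h4]
    exact (Nat.ModEq.pow_totient (hcop s)).trans (Nat.ModEq.pow_totient (hcop _)).symm

theorem nil : S_NIL := by
  intro p hp F _ _ _ N _ _ f hf hpp a ha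
  classical
  cases nonempty_fintype N
  rw [finsum_eq_sum_of_fintype] at ha
  rw [finsum_eq_sum_of_fintype]
  obtain ⟨K, hK⟩ := ha
  set m := Nat.card N / p ^ (Nat.card N).factorization p with hm
  have hφ : 1 ≤ Nat.totient m := Nat.totient_pos.2 (Nat.ordCompl_pos p Nat.card_pos.ne')
  obtain ⟨s, hs⟩ : ∃ s, s = K + (Nat.card N).factorization p := ⟨_, rfl⟩
  have hKQ : K ≤ p ^ (Nat.totient m * s) := by
    have h1 : s ≤ Nat.totient m * s := Nat.le_mul_of_pos_left _ hφ
    have h2 : Nat.totient m * s < p ^ (Nat.totient m * s) := Nat.lt_pow_self hp.out.one_lt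
    omega
  have hQ : (∑ g : N, MonoidAlgebra.single g (a g)) ^ p ^ (Nat.totient m * s) = 0 :=
    pow_eq_zero_of_le hKQ hK
  have h1 := lam_pow p (Nat.totient m * s) (fun g => f g ^ p ^ (Nat.totient m * s))
    (fun g x => by
      show f (g * x * g⁻¹) ^ p ^ (Nat.totient m * s) = f x ^ p ^ (Nat.totient m * s)
      rw [hf g x]) a
  rw [hQ, lam_zero] at h1
  have h2 : ∑ g, a g ^ p ^ (Nat.totient m * s) *
      f (g ^ p ^ (Nat.totient m * s)) ^ p ^ (Nat.totient m * s) =
      (∑ g, a g * f g) ^ p ^ (Nat.totient m * s) := by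
    rw [sum_pow_char_pow]
    refine Finset.sum_congr rfl fun g _ => ?_
    rw [pow_eq_pp p (by omega), hpp, mul_pow]
  rw [h2] at h1
  exact (pow_eq_zero_iff (pow_ne_zero _ hp.out.ne_zero)).1 h1.symm

end Pool.Agent.Y705.NV
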