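import Pool.Agent.Y63.NV.Stm

/-!
# NV-PPT: traces in characteristic `p` only depend on the `p'`-part
-/

namespace Pool.Agent.Y705.NV

open Pool.Agent.Y63.NV

/-- the number-theoretic part: `p ^ (φ(m) s)` and the exponent `pexp` agree modulo `|N|` -/
theorem pexp_modEq (p : ℕ) [hp : Fact p.Prime] (N : Type) [Finite N] [Nonempty N] :
    pexp p N ≡ 1 [MOD (Nat.card N / p ^ (Nat.card N).factorization p)] ∧
      pexp p N * p ^ (Nat.card N).factorization p ≡ p ^ (Nat.card N).factorization p
        [MOD Nat.card N] := by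
  set n := Nat.card N with hn
  have hn0 : n ≠ 0 := Nat.card_pos.ne'
  set m := n / p ^ n.factorization p with hm
  have hcop : Nat.Coprime (p ^ n.factorization p) m :=
    Nat.Coprime.pow_left _ (Nat.coprime_ordCompl hp.out hn0)
  have h1 : pexp p N ≡ 1 [MOD m] := Nat.ModEq.pow_totient hcop
  refine ⟨h1, ?_⟩
  have h2 : p ^ n.factorization p * m = n := Nat.ordProj_mul_ordCompl_eq_self n p
  have h3 := h1.mul_right' (p ^ n.factorization p)
  rw [one_mul, mul_comm m, h2] at h3
  exact h3

theorem pow_pp (p : ℕ) [hp : Fact p.Prime] {N : Type} [Group N] [Finite N] (x : N) :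
    (pp p x) ^ p ^ (Nat.card N).factorization p = x ^ p ^ (Nat.card N).factorization p := by
  unfold pp
  rw [← pow_mul, pow_eq_pow_iff_modEq]
  exact (pexp_modEq p N).2.of_dvd (orderOf_dvd_natCard x)

theorem trace_pp (p : ℕ) [hp : Fact p.Prime] {F : Type} [Field F] [CharP F p] {N : Type} [Group N]
    [Finite N] {V : Type} [AddCommGroup V] [Module F V] [FiniteDimensional F V]
    (ρ : Representation F N V) (x : N) : ρ.character (pp p x) = ρ.character x := by
  unfold Representation.character
  rcases subsingleton_or_nontrivial V with hV | hV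
  · rw [Subsingleton.elim (ρ (pp p x)) (ρ x)]
  have : CharP (Module.End F V) p :=
    charP_of_injective_algebraMap (FaithfulSMul.algebraMap_injective F (Module.End F V)) p
  have hc : Commute (ρ x) (ρ (pp p x)) := by
    unfold pp
    rw [map_pow]
    exact Commute.pow_right (Commute.refl _) _
  have hnil : IsNilpotent (ρ x - ρ (pp p x)) := by
    refine ⟨p ^ (Nat.card N).factorization p, ?_⟩
    rw [sub_pow_char_pow_of_commute _ _ hc, ← map_pow, ← map_pow, pow_pp, sub_self]
  have h1 := (LinearMap.isNilpotent_trace_of_isNilpotent hnil).eq_zero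
  rw [map_sub, sub_eq_zero] at h1
  exact h1.symm

theorem ppt : S_PPT := by
  intro p _ F _ _ _ N _ _ φ hφ x
  obtain ⟨V, _, _, _, ρ, -, rfl⟩ := hφ
  exact trace_pp p ρ x

end Pool.Agent.Y705.NV
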